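import Mathlib
import Pool.Agent.RB61.Comm

set_option autoImplicit false

/-!
MP_d14c4c_al.  Amenable regular branch groups generated by finite automata (in particular those of
subexponential growth), and all groups commensurable with them, have finite commutator width.
No contraction is assumed.

The group acts on the set `List X` of the words over a finite alphabet `X` (the vertices of a
rooted regular tree).  The definitions `SelfSimilar`, `IsSection`, `LevelTransitive`,
`ContainsPower` are in `Pool.Agent.CB71.Tree`; `FolnerAmenable` and `SubexponentialGrowth` in
`Pool.Agent.RB61.FolSub`; `FiniteState` in `Pool.Agent.RB61.Final`.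
-/

namespace Pool.Agent.RB61.Variants.AmenableBranch

open scoped commutatorElement
open Pool.Agent.CB71 Pool.Agent.RB61

/-- Let `X` be a finite alphabet with at least two letters and let `G` be a finitely generated,
self-similar group of permutations of the words over `X` all of whose elements have only finitely
many sections (so `G` is generated by a finite automaton), level-transitive and regular branch over
a subgroup `K` of finite index.  Assume that `G` has subexponential growth, or more generally that
it is amenable (Følner condition).  Let `H` be a subgroup of finite index in `G` and let `Γ` be a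
group with a subgroup `Γ₁` of finite index isomorphic to `H` (for example `Γ = G`).  Then there is a
number `N` such that every element of the derived subgroup of `Γ` is a product of at most `N`
commutators. -/
theorem result (X : Type) [Finite X] [Nontrivial X] (G K : Subgroup (Equiv.Perm (List X)))
    (hfg : G.FG) (hss : SelfSimilar G) (hfs : FiniteState G) (ht : LevelTransitive G)
    (hKG : K ≤ G) (hKi : (K.subgroupOf G).FiniteIndex) (hKp : ContainsPower K)
    (hA : SubexponentialGrowth G ∨ FolnerAmenable G)
    (H : Subgroup (Equiv.Perm (List X))) (hHG : H ≤ G) (hHi : (H.subgroupOf G).FiniteIndex)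
    (Γ : Type) [Group Γ] (Γ₁ : Subgroup Γ) (hΓ₁ : Γ₁.FiniteIndex) (e : Γ₁ ≃* H) :
    ∃ N : ℕ, ∀ g ∈ commutator Γ, ∃ l : List (Γ × Γ),
      l.length ≤ N ∧ g = (l.map fun p => ⁅p.1, p.2⁆).prod :=
  main_comm hfg hss hfs ht hKG hKi hKp hA.symm hHG hHi Γ₁ hΓ₁ e

end Pool.Agent.RB61.Variants.AmenableBranch
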